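import Pool.Agent.N343.AS.Stm

/-! # Project AS (helper343), leaf LAT (helper823): digit terms are lattice points -/

set_option autoImplicit false

namespace Pool.Agent.N823.AS.LAT

open Pool.Agent.N343.AS

lemma Q_mono {i N : ℕ} (h : i ≤ N) : Q i ≤ Q N := by
  induction N, h using Nat.le_induction with
  | base => exact le_rfl
  | succ n _ ih =>
    have : Q (n + 1) = Q n + (n + 5) := rfl
    omega

lemma sh_int {i N : ℕ} (h : i ≤ N) : ∃ z : ℤ, sh i * 2 ^ (Q N) = z := by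
  refine ⟨2 ^ (i + 2) * 2 ^ (Q N - Q i), ?_⟩
  have h1 : (2 : ℝ) ^ (Q N) = 2 ^ (Q i) * 2 ^ (Q N - Q i) := by
    rw [← pow_add, Nat.add_sub_cancel' (Q_mono h)]
  have h2 : (2 : ℝ) ^ (Q i) ≠ 0 := by positivity
  unfold sh
  rw [h1]
  push_cast
  field_simp

lemma cls_int {i N : ℕ} (h : i ≤ N) (k : ℕ) : ∃ z : ℤ, cls N i k * 2 ^ (Q N) = z := by
  have h1 : ∃ z : ℤ, (if k / 2 = 0 then sh i else if k / 2 < 2 ^ i then
      ((k / 2 : ℕ) : ℝ) * 2 ^ (N - i) else 0) * 2 ^ (Q N) = z := by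
    split_ifs
    · exact sh_int h
    · exact ⟨((k / 2 : ℕ) : ℤ) * 2 ^ (N - i) * 2 ^ (Q N), by push_cast; rfl⟩
    · exact ⟨0, by simp⟩
  obtain ⟨z, hz⟩ := h1
  unfold cls
  rw [mul_assoc, hz]
  split_ifs
  · exact ⟨z, by simp⟩
  · exact ⟨-z, by simp⟩

theorem main : S_LAT := by
  intro N t
  have h2 : (2 : ℝ) ^ (Q N) ≠ 0 := by positivity
  rcases t with t | m
  · have hi : (t.1 : ℕ) ≤ N := by omega
    obtain ⟨z, hz⟩ := cls_int hi t.2
    refine ⟨(U N t.1 : ℤ) * 2 ^ (Q N) + z, ?_⟩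
    change ((U N t.1 : ℝ) + cls N t.1 t.2) * Z (N + 1) = _
    push_cast
    rw [← hz]
    field_simp
  · refine ⟨2 ^ (N + (m : ℕ)) * 2 ^ (Q N), ?_⟩
    change (2 : ℝ) ^ (N + (m : ℕ)) * Z (N + 1) = _
    push_cast
    field_simp

end Pool.Agent.N823.AS.LAT
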